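import Pool.Agent.PLX.StmtsB

/-!
Squad PLX (MP_1fc801_co), row CS1 (helper19): the constants.
-/

set_option autoImplicit false

namespace Pool.Agent.PLX.H19

/-- bounded by a power of `L` -/
def P (x : ℝ → ℝ) : Prop := ∃ k : ℕ, ∀ L : ℝ, 2 ≤ L → 0 ≤ x L ∧ x L ≤ L ^ k

variable {x y : ℝ → ℝ}

lemma P.const {c : ℝ} (hc : 0 ≤ c) : P (fun _ => c) := by
  obtain ⟨k, hk⟩ := pow_unbounded_of_one_lt c (by norm_num : (1 : ℝ) < 2)
  exact ⟨k, fun L hL => ⟨hc, hk.le.trans (pow_le_pow_left₀ (by norm_num) hL k)⟩⟩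

lemma P.base : P (fun L => L) := ⟨1, fun L hL => ⟨by linarith, by rw [pow_one]⟩⟩

lemma pow_mono {L : ℝ} (hL : 2 ≤ L) {k l : ℕ} (h : k ≤ l) : L ^ k ≤ L ^ l :=
  pow_le_pow_right₀ (by linarith) h

lemma P.add (hx : P x) (hy : P y) : P (fun L => x L + y L) := by
  obtain ⟨k, hk⟩ := hx
  obtain ⟨l, hl⟩ := hy
  refine ⟨max k l + 1, fun L hL => ?_⟩
  obtain ⟨a1, a2⟩ := hk L hL
  obtain ⟨b1, b2⟩ := hl L hL
  refine ⟨add_nonneg a1 b1, ?_⟩
  have h1 := a2.trans (pow_mono hL (le_max_left k l))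
  have h2 := b2.trans (pow_mono hL (le_max_right k l))
  have h3 : 0 ≤ L ^ max k l := by positivity
  rw [pow_succ]
  nlinarith

lemma P.mul (hx : P x) (hy : P y) : P (fun L => x L * y L) := by
  obtain ⟨k, hk⟩ := hx
  obtain ⟨l, hl⟩ := hy
  refine ⟨k + l, fun L hL => ?_⟩
  obtain ⟨a1, a2⟩ := hk L hL
  obtain ⟨b1, b2⟩ := hl L hL
  refine ⟨mul_nonneg a1 b1, ?_⟩
  rw [pow_add]
  exact mul_le_mul a2 b2 b1 (by positivity)

lemma P.pow (hx : P x) (g : ℕ) : P (fun L => x L ^ g) := by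
  obtain ⟨k, hk⟩ := hx
  refine ⟨k * g, fun L hL => ?_⟩
  obtain ⟨a1, a2⟩ := hk L hL
  refine ⟨pow_nonneg a1 _, (pow_le_pow_left₀ a1 a2 _).trans ?_⟩
  rw [← pow_mul]

lemma P.ceil (hx : P x) : P (fun L => ((⌈x L⌉₊ : ℕ) : ℝ)) := by
  obtain ⟨k, hk⟩ := hx.add (P.const zero_le_one)
  obtain ⟨l, hl⟩ := hx
  refine ⟨k, fun L hL => ⟨Nat.cast_nonneg _, ?_⟩⟩
  exact (Nat.ceil_lt_add_one (hl L hL).1).le.trans (hk L hL).2

/-- the quantities -/
noncomputable def Bf (e b : ℕ) (L : ℝ) : ℝ := 4 * 17 ^ (2 * e) * L ^ b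

noncomputable def sf (e b : ℕ) (L : ℝ) : ℕ := ⌈5184 * Bf e b L⌉₊ + 5

noncomputable def Kf (e b : ℕ) (L : ℝ) : ℝ := 256 * (9 * Bf e b L * (sf e b L : ℕ)) ^ 4

noncomputable def mf (e b : ℕ) (L : ℝ) : ℕ :=
  ⌈(3 * ((e : ℝ) + 1) * Kf e b L ^ ((e + 1) * e)) ^ e * Kf e b L ^ ((e + 1) * e)⌉₊

noncomputable def nf (e b : ℕ) (L : ℝ) : ℕ :=
  2 * ((e + 1) * (1 + mf e b L) * mf e b L ^ (e + 1)) ^ e + 1

noncomputable def Rf (e b : ℕ) (L : ℝ) : ℝ :=
  8 * ((e : ℝ) + 1) + Bf e b L * (sf e b L : ℕ) * ((4 * ((e : ℝ) + 2)) ^ (2 * e) * 7 ^ (2 * e)) + 1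

noncomputable def Tf (e b : ℕ) (L : ℝ) : ℝ :=
  ((Kf e b L ^ e + 1) * (e * (2 * ((mf e b L : ℕ) : ℝ) + 1) ^ (e + 1))) ^ e

variable (e b : ℕ)

lemma pB : P (Bf e b) := (P.const (by positivity)).mul (P.base.pow b)

lemma ps : P (fun L => ((sf e b L : ℕ) : ℝ)) := by
  have h := (((P.const (by norm_num : (0 : ℝ) ≤ 5184)).mul (pB e b)).ceil).add
    (P.const (by norm_num : (0 : ℝ) ≤ 5))
  obtain ⟨k, hk⟩ := h
  refine ⟨k, fun L hL => ?_⟩
  have := hk L hL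
  unfold sf
  push_cast
  exact this

lemma pK : P (Kf e b) :=
  (P.const (by norm_num)).mul ((((P.const (by norm_num)).mul (pB e b)).mul (ps e b)).pow 4)

lemma pm : P (fun L => ((mf e b L : ℕ) : ℝ)) :=
  ((((P.const (show (0 : ℝ) ≤ 3 * ((e : ℝ) + 1) by positivity)).mul ((pK e b).pow _)).pow e).mul
    ((pK e b).pow _)).ceil

lemma pn : P (fun L => ((nf e b L : ℕ) : ℝ)) := by
  have h := ((P.const (by norm_num : (0 : ℝ) ≤ 2)).mul
    ((((P.const (show (0 : ℝ) ≤ (e : ℝ) + 1 by positivity)).mul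
      ((P.const (zero_le_one (α := ℝ))).add (pm e b))).mul ((pm e b).pow (e + 1))).pow e)).add
    (P.const (zero_le_one (α := ℝ)))
  obtain ⟨k, hk⟩ := h
  refine ⟨k, fun L hL => ?_⟩
  have := hk L hL
  unfold nf
  push_cast
  exact this

lemma pR : P (Rf e b) :=
  ((P.const (show (0 : ℝ) ≤ 8 * ((e : ℝ) + 1) by positivity)).add
    (((pB e b).mul (ps e b)).mul (P.const (by positivity)))).add (P.const zero_le_one)

lemma pT : P (Tf e b) :=
  ((((pK e b).pow e).add (P.const zero_le_one)).mul ((P.const (Nat.cast_nonneg e)).mul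
    ((((P.const (by norm_num)).mul (pm e b)).add (P.const zero_le_one)).pow _))).pow e

theorem cs1 : Cs1Stmt := by
  intro e b
  obtain ⟨c1, hc1⟩ := P.const (show (0 : ℝ) ≤ 4 * ((e : ℝ) + 1) by positivity)
  obtain ⟨c2, hc2⟩ := (pK e b).pow ((e + 1) * e + 1)
  obtain ⟨c3, hc3⟩ := ((P.const (show (0 : ℝ) ≤ (e : ℝ) + 1 by positivity)).mul (pn e b)).mul
    (((pK e b).pow (e + 1)).pow (e + 2))
  obtain ⟨k1, hk1⟩ := (P.const (by norm_num : (0 : ℝ) ≤ 2)).mul (pR e b)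
  have q1 : P (fun L => L ^ b * (4 * ((sf e b L : ℕ) : ℝ))) :=
    (P.base.pow b).mul ((P.const (by norm_num)).mul (ps e b))
  obtain ⟨k2, hk2⟩ := (((P.const (show (0 : ℝ) ≤ 3 * (16 * ((e : ℝ) + 1) ^ 2) by positivity)).mul
    ((pK e b).pow e)).pow (e * (2 * e + 1))).mul ((q1.mul (pT e b)).pow e)
  obtain ⟨k3, hk3⟩ := q1.mul ((pT e b).mul (P.const (show (0 : ℝ) ≤ 2 ^ (2 * e) by positivity)))
  obtain ⟨k4, hk4⟩ := (P.base.pow b).mul (ps e b)
  obtain ⟨k5, hk5⟩ := q1.mul ((pT e b).mul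
    (((P.const (show (0 : ℝ) ≤ 12 * (e : ℝ) by positivity)).mul ((pK e b).pow e)).pow (2 * e)))
  refine ⟨c1 + c2 + c3, 3 + k1 + k2 + k3 + k4 + k5 + 1, ?_⟩
  intro L B K T R s m n hL hB hs hK hm hn hR hT
  have hL0 : 0 < L := by linarith
  have eB : B = Bf e b L := hB
  subst eB
  have es : s = sf e b L := hs
  subst es
  have eK : K = Kf e b L := hK
  subst eK
  have em : m = mf e b L := hm
  subst em
  have en : n = nf e b L := hn
  subst en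
  have eR : R = Rf e b L := hR
  subst eR
  have eT : T = Tf e b L := hT
  subst eT
  have h8 : (8 : ℝ) ≤ L ^ 3 := by
    have := pow_le_pow_left₀ (by norm_num : (0 : ℝ) ≤ 2) hL 3
    linarith
  refine ⟨?_, (hk1 L hL).2.trans (pow_mono hL (by omega)), h8.trans (pow_mono hL (by omega)), ?_,
    (hk3 L hL).2.trans (pow_mono hL (by omega)), (hk4 L hL).2.trans (pow_mono hL (by omega)),
    (hk5 L hL).2.trans (pow_mono hL (by omega))⟩
  · intro ρ hρ0 hρ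
    have key : ∀ a : ℝ, a ≤ L ^ (c1 + c2 + c3) → a * ρ ≤ 1 := by
      intro a ha
      have h1 : (L ^ (c1 + c2 + c3)) * (1 / L ^ (c1 + c2 + c3)) = 1 := by
        field_simp
      calc a * ρ ≤ L ^ (c1 + c2 + c3) * ρ := mul_le_mul_of_nonneg_right ha hρ0.le
        _ ≤ L ^ (c1 + c2 + c3) * (1 / L ^ (c1 + c2 + c3)) :=
            mul_le_mul_of_nonneg_left hρ (by positivity)
        _ = 1 := h1
    refine ⟨?_, key _ ((hc1 L hL).2.trans (pow_mono hL (by omega))),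
      key _ ((hc2 L hL).2.trans (pow_mono hL (by omega))),
      key _ ((hc3 L hL).2.trans (pow_mono hL (by omega)))⟩
    have := key 1 (one_le_pow₀ (by linarith))
    linarith
  · intro j hj
    have h3 : (8 : ℝ) ≤ j := h8.trans ((pow_mono hL (by omega)).trans hj)
    refine ⟨by linarith, ?_⟩
    have h4 : L ^ (k2 + 1) ≤ j := (pow_mono hL (by omega)).trans hj
    refine lt_of_le_of_lt (hk2 L hL).2 (lt_of_lt_of_le ?_ h4)
    exact pow_lt_pow_right₀ (by linarith) (by omega)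

end Pool.Agent.PLX.H19
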