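import Pool.Agent.PLX.StmtsB

/-!
Squad PLX (MP_1fc801_co), row PRX (helper19): division by a zero of `Φ`.
-/

set_option autoImplicit false

open Module

namespace Pool.Agent.PLX.H19

/-- the key estimate for the quotient norm -/
lemma lift_near {E : Type} [NormedAddCommGroup E] [NormedSpace ℝ E] (v : E) (hv : 0 < ‖v‖)
    [hcl : IsClosed ((Submodule.span ℝ {v} : Submodule ℝ E) : Set E)] (w : E) (r : ℝ)
    (h : ‖(Submodule.Quotient.mk w : E ⧸ Submodule.span ℝ {v})‖ ≤ r) :
    ∃ n : ℤ, ‖w + (n : ℝ) • v‖ ≤ r + ‖v‖ := by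
  obtain ⟨m, hm, hlt⟩ := Submodule.Quotient.norm_mk_lt
    (Submodule.Quotient.mk w : E ⧸ Submodule.span ℝ {v}) (half_pos hv)
  rw [Submodule.Quotient.eq, Submodule.mem_span_singleton] at hm
  obtain ⟨a, ha⟩ := hm
  refine ⟨round a, ?_⟩
  have h1 : w + ((round a : ℤ) : ℝ) • v = m + (((round a : ℤ) : ℝ) - a) • v := by
    rw [sub_smul, ha]
    abel
  have h2 : |((round a : ℤ) : ℝ) - a| ≤ 1 / 2 := by
    rw [abs_sub_comm]
    exact abs_sub_round a
  have h3 : ‖(((round a : ℤ) : ℝ) - a) • v‖ ≤ 1 / 2 * ‖v‖ := by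
    rw [norm_smul, Real.norm_eq_abs]
    exact mul_le_mul_of_nonneg_right h2 (norm_nonneg v)
  rw [h1]
  have h4 := norm_add_le m ((((round a : ℤ) : ℝ) - a) • v)
  linarith

theorem prx : PrxStmt := by
  classical
  intro A _ _ E _ _ Φ f G d z hD hfd hrk hzG hz0 hΦz
  have hfz : 0 < ‖f z‖ := norm_pos hD hzG hz0
  have hcl : IsClosed ((Submodule.span ℝ {f z} : Submodule ℝ E) : Set E) :=
    Submodule.closed_of_finiteDimensional _
  -- a projection with kernel spanned by `z`
  obtain ⟨l, hl⟩ := LinearMap.exists_leftInverse_of_injective (LinearMap.toSpanSingleton ℚ A z)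
    (LinearMap.ker_toSpanSingleton ℚ hz0)
  have hlz : l z = 1 := by
    have h1 := LinearMap.congr_fun hl 1
    simpa using h1
  let P : A →ₗ[ℚ] A := LinearMap.id - (LinearMap.toSpanSingleton ℚ A z).comp l
  have hP : ∀ x, P x = x - l x • z := fun x => rfl
  have hPz : P z = 0 := by rw [hP, hlz, one_smul, sub_self]
  have hΦP : ∀ x, Φ (P x) = Φ x := by
    intro x
    rw [hP, map_sub, Φ_rat, hΦz, mul_zero, sub_zero]
  let q : E →+ (E ⧸ Submodule.span ℝ {f z}) := (Submodule.mkQ (Submodule.span ℝ {f z})).toAddMonoidHom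
  have hq : ∀ w, q w = Submodule.Quotient.mk w := fun w => rfl
  have hqP : ∀ x, q (f (P x)) = Submodule.Quotient.mk (f x) := by
    intro x
    rw [hP, map_sub, f_rat, hq, Submodule.Quotient.mk_sub]
    have h1 : (Submodule.Quotient.mk ((l x : ℝ) • f z) : E ⧸ Submodule.span ℝ {f z}) = 0 := by
      rw [Submodule.Quotient.mk_eq_zero]
      exact Submodule.smul_mem _ _ (Submodule.mem_span_singleton_self _)
    rw [h1, sub_zero]
  let G' : AddSubgroup A := G.map P.toAddMonoidHom
  have hsub : ∀ r : ℝ, {x' : A | x' ∈ G' ∧ ‖(q.comp f) x'‖ ≤ r} ⊆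
      P '' {x : A | x ∈ G ∧ ‖f x‖ ≤ r + ‖f z‖} := by
    rintro r x' ⟨⟨x, hx, rfl⟩, hr⟩
    have h1 : ‖(Submodule.Quotient.mk (f x) : E ⧸ Submodule.span ℝ {f z})‖ ≤ r := by
      rw [← hqP]
      exact hr
    obtain ⟨n, hn⟩ := lift_near (f z) hfz (f x) r h1
    refine ⟨x + n • z, ⟨G.add_mem hx (G.zsmul_mem hzG n), ?_⟩, ?_⟩
    · rw [map_add, f_int]
      exact hn
    · rw [map_add, map_zsmul, hPz, smul_zero, add_zero]
      rfl
  have hD' : Dsc (q.comp f) G' := fun r => ((hD (r + ‖f z‖)).image P).subset (hsub r)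
  have hspG' : sp G' = (sp G).map P := by
    unfold sp
    rw [Submodule.map_span]
    rfl
  refine ⟨A, inferInstance, inferInstance, E ⧸ Submodule.span ℝ {f z}, inferInstance, inferInstance,
    Φ, q.comp f, G', hD', ?_, ?_, ?_, ?_⟩
  · rw [hspG']
    infer_instance
  · rw [hspG']
    have h1 := LinearMap.finrank_range_add_finrank_ker (P.domRestrict (sp G))
    have h2 : LinearMap.range (P.domRestrict (sp G)) = (sp G).map P := by
      rw [LinearMap.range_domRestrict]
    rw [h2] at h1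
    have h3 : 0 < finrank ℚ (LinearMap.ker (P.domRestrict (sp G))) := by
      rw [Module.finrank_pos_iff_exists_ne_zero]
      refine ⟨⟨⟨z, le_sp hzG⟩, ?_⟩, ?_⟩
      · rw [LinearMap.mem_ker]
        exact hPz
      · intro h
        apply hz0
        have h4 := congrArg Subtype.val (congrArg Subtype.val h)
        exact h4
    omega
  · intro x hx
    refine ⟨P x, ⟨x, hx, rfl⟩, ?_, hΦP x⟩
    show ‖q (f (P x))‖ ≤ ‖f x‖
    rw [hqP]
    exact Submodule.Quotient.norm_mk_le _ _
  · intro r _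
    unfold cnt
    have h1 : bl (q.comp f) G' r ⊆ (bl f G (r + ‖f z‖)).image P := by
      intro x' hx'
      rw [mem_bl hD'] at hx'
      obtain ⟨x, hx, hxx⟩ := hsub r hx'
      rw [Finset.mem_image]
      exact ⟨x, (mem_bl hD).2 hx, hxx⟩
    exact (Finset.card_le_card h1).trans Finset.card_image_le

end Pool.Agent.PLX.H19
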